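import Mathlib

/-!
A transitive finitary `2`-group on an infinite set no transitive subgroup of which has the
cyclic-block property.
-/

namespace Pool.Agent.Results.MP_f6f917_al.NoCyclicBlock

open Equiv

/-- `H` has a single orbit. -/
def Trans {Ω : Type} (H : Subgroup (Perm Ω)) : Prop := ∀ x y : Ω, ∃ h ∈ H, h x = y

/-- All elements of `H` move only finitely many points. -/
def Finitary {Ω : Type} (H : Subgroup (Perm Ω)) : Prop := ∀ h ∈ H, {x : Ω | h x ≠ x}.Finite

/-- All elements of `H` have order a power of `p`. -/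
def IsP {Ω : Type} (p : ℕ) (H : Subgroup (Perm Ω)) : Prop := ∀ h ∈ H, ∃ k : ℕ, orderOf h = p ^ k

/-- `S` is a Sylow `p`-subgroup of `G`, that is, maximal among the `p`-subgroups of `G`. -/
def IsSylow {Ω : Type} (p : ℕ) (G S : Subgroup (Perm Ω)) : Prop :=
  S ≤ G ∧ IsP p S ∧ ∀ T : Subgroup (Perm Ω), T ≤ G → IsP p T → S ≤ T → T = S

/-- `B` is a block for `H`. -/
def IsBlock {Ω : Type} (H : Subgroup (Perm Ω)) (B : Set Ω) : Prop :=
  B.Nonempty ∧ ∀ h ∈ H, h '' B = B ∨ Disjoint (h '' B) B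

/-- `H` is transitive and every finite set is contained in a finite block. -/
def TotallyImprimitive {Ω : Type} (H : Subgroup (Perm Ω)) : Prop :=
  Trans H ∧ ∀ F : Set Ω, F.Finite → ∃ B : Set Ω, B.Finite ∧ IsBlock H B ∧ F ⊆ B

/-- The cyclic-block property. -/
def CyclicBlock {Ω : Type} (p : ℕ) (H : Subgroup (Perm Ω)) : Prop :=
  TotallyImprimitive H ∧ IsP p H ∧ Finitary H ∧
    ∀ h ∈ H, ∀ x : Ω, IsBlock H {y : Ω | ∃ n : ℤ, (h ^ n) x = y}

/-- the points: `(n, u, v, w)` -/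
abbrev Om := ℕ × ZMod 2 × ZMod 2 × ZMod 2

/-- `g` acts as `q` on the first coordinate and, on the other ones, by translations. -/
def Shape (g : Perm Om) (q : Perm ℕ) (r s : ℕ → ZMod 2) (t : ℕ → ZMod 2 → ZMod 2 → ZMod 2) : Prop :=
  ∀ n u v w, g (n, u, v, w) = (q n, u + r n, v + s n, w + t n u v)

/-- the compatibility condition -/
def Cond (r : ℕ → ZMod 2) (t : ℕ → ZMod 2 → ZMod 2 → ZMod 2) : Prop :=
  ∀ n, t n 0 0 + t n 0 1 + t n 1 0 + t n 1 1 = r n

/-- `q` preserves all partitions into intervals of length `2 ^ j`. -/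
def Good (q : Perm ℕ) : Prop := ∀ j x y : ℕ, x / 2 ^ j = y / 2 ^ j ↔ q x / 2 ^ j = q y / 2 ^ j

theorem zmod2 (a : ZMod 2) : a = 0 ∨ a = 1 := by
  revert a; decide

theorem add_self' (a : ZMod 2) : a + a = 0 := by
  revert a; decide

theorem reindex (f : ZMod 2 → ZMod 2 → ZMod 2) (r s : ZMod 2) :
    f (0 + r) (0 + s) + f (0 + r) (1 + s) + f (1 + r) (0 + s) + f (1 + r) (1 + s) =
      f 0 0 + f 0 1 + f 1 0 + f 1 1 := by
  have h : (1 : ZMod 2) + 1 = 0 := by decide
  rcases zmod2 r with rfl | rfl <;> rcases zmod2 s with rfl | rfl <;>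
    simp only [zero_add, add_zero, h] <;> ring

/-- the group -/
def S : Subgroup (Perm Om) where
  carrier := {g | {x | g x ≠ x}.Finite ∧ ∃ q r s t, Good q ∧ Cond r t ∧ Shape g q r s t}
  mul_mem' := by
    rintro g g' ⟨hf, q, r, s, t, hq, hc, hg⟩ ⟨hf', q', r', s', t', hq', hc', hg'⟩
    refine ⟨?_, q * q', fun n => r' n + r (q' n), fun n => s' n + s (q' n),
      fun n u v => t' n u v + t (q' n) (u + r' n) (v + s' n), ?_, ?_, ?_⟩
    · refine (hf.union hf').subset fun x hx => ?_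
      by_contra hcon
      simp only [Set.mem_union, Set.mem_ofPred_eq, not_or, not_not] at hcon
      apply hx
      rw [Perm.mul_apply, hcon.2, hcon.1]
    · intro j x y
      rw [hq' j x y, hq j]
      rfl
    · intro n
      have h1 := hc' n
      have h2 := hc (q' n)
      have h3 := reindex (t (q' n)) (r' n) (s' n)
      rw [h2] at h3
      beta_reduce
      linear_combination h1 + h3
    · intro n u v w
      rw [Perm.mul_apply, hg', hg]
      simp only [Perm.mul_apply, add_assoc]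
  one_mem' := ⟨by simp, 1, 0, 0, 0, fun j x y => Iff.rfl, fun n => by simp, fun n u v w => by simp⟩
  inv_mem' := by
    rintro g ⟨hf, q, r, s, t, hq, hc, hg⟩
    have hqi : ∀ n, q (q⁻¹ n) = n := fun n => by rw [← Perm.mul_apply, mul_inv_cancel]; rfl
    refine ⟨?_, q⁻¹, fun n => r (q⁻¹ n), fun n => s (q⁻¹ n),
      fun n u v => t (q⁻¹ n) (u + r (q⁻¹ n)) (v + s (q⁻¹ n)), ?_, ?_, ?_⟩
    · refine hf.subset fun x hx hcon => hx ?_
      rw [Perm.inv_eq_iff_eq]
      exact hcon.symm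
    · intro j x y
      rw [hq j (q⁻¹ x) (q⁻¹ y), hqi, hqi]
    · intro n
      have h3 := reindex (t (q⁻¹ n)) (r (q⁻¹ n)) (s (q⁻¹ n))
      rw [hc] at h3
      exact h3
    · intro n u v w
      rw [Perm.inv_eq_iff_eq, hg, hqi]
      simp only [Prod.mk.injEq, true_and]
      refine ⟨?_, ?_, ?_⟩
      · rw [add_assoc, add_self', add_zero]
      · rw [add_assoc, add_self', add_zero]
      · rw [add_assoc, add_self', add_zero]

/-! ### orders -/

theorem Good.pow {q : Perm ℕ} (hq : Good q) (k : ℕ) : Good (q ^ k) := by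
  induction k with
  | zero => intro j x y; simp
  | succ k ih =>
    intro j x y
    rw [pow_succ, Perm.mul_apply, Perm.mul_apply, hq j x y, ih j (q x) (q y)]

theorem good_pow_div {q : Perm ℕ} (hq : Good q) {N : ℕ} (hN : ∀ x, 2 ^ N ≤ x → q x = x) :
    ∀ i, i ≤ N → ∀ x, (q ^ (2 ^ i)) x / 2 ^ (N - i) = x / 2 ^ (N - i) := by
  intro i
  induction i with
  | zero =>
    intro _ x
    simp only [pow_zero, pow_one, Nat.sub_zero]
    by_cases hx : x < 2 ^ N
    · have hqx : q x < 2 ^ N := by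
        by_contra hcon
        have h1 := hN (q x) (not_lt.1 hcon)
        have h2 := q.injective h1
        rw [h2] at hcon
        exact hcon hx
      rw [Nat.div_eq_of_lt hx, Nat.div_eq_of_lt hqx]
    · rw [hN x (not_lt.1 hx)]
  | succ i ih =>
    intro hi x
    have ih' := ih (by omega)
    obtain ⟨j, hj⟩ : ∃ j, N - (i + 1) = j := ⟨_, rfl⟩
    have hj' : N - i = j + 1 := by omega
    rw [hj'] at ih'
    rw [hj]
    have hg := hq.pow (2 ^ i)
    generalize hh : q ^ (2 ^ i) = h at hg ih'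
    have hpow : q ^ (2 ^ (i + 1)) = h * h := by rw [← hh, ← pow_add, pow_succ]; congr 1; ring
    rw [hpow, Perm.mul_apply]
    have e : ∀ z : ℕ, z / 2 ^ (j + 1) = z / 2 ^ j / 2 := fun z => by
      rw [Nat.div_div_eq_div_mul, pow_succ]
    have h1 := ih' x
    have h2 := ih' (h x)
    have h3 := hg j x (h x)
    rw [e, e] at h1 h2
    by_cases huv : x / 2 ^ j = h x / 2 ^ j
    · exact (huv.trans (h3.1 huv)).symm
    · have hvw : ¬ (h x / 2 ^ j = h (h x) / 2 ^ j) := fun hc => huv (h3.2 hc)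
      omega

theorem isP_S : IsP 2 S := by
  intro g hg
  obtain ⟨hf, q, r, s, t, hq, hc, hsh⟩ := hg
  -- a bound for the support of `q`
  obtain ⟨N, hN⟩ : ∃ N, ∀ x, 2 ^ N ≤ x → q x = x := by
    obtain ⟨B, hB⟩ := (hf.image Prod.fst).bddAbove
    refine ⟨B + 1, fun x hx => ?_⟩
    by_contra hcon
    have h1 : x ∈ Prod.fst '' {x : Om | g x ≠ x} := by
      refine ⟨(x, 0, 0, 0), ?_, rfl⟩
      intro h2
      rw [hsh] at h2
      exact hcon (Prod.mk.inj h2).1
    have h3 := hB h1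
    have h4 : B + 1 < 2 ^ (B + 1) := Nat.lt_two_pow_self
    omega
  have hqN : ∀ x, (q ^ (2 ^ N)) x = x := fun x => by
    simpa using good_pow_div hq hN N le_rfl x
  have hfst : ∀ (k : ℕ) (x : Om), ((g ^ k) x).1 = (q ^ k) x.1 := by
    intro k
    induction k with
    | zero => intro x; rfl
    | succ k ih =>
      intro x
      rw [pow_succ, pow_succ, Perm.mul_apply, Perm.mul_apply, ih]
      obtain ⟨n, u, v, w⟩ := x
      rw [hsh]
  obtain ⟨-, q', r', s', t', -, -, hsh'⟩ :=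
    S.pow_mem (show g ∈ S from ⟨hf, q, r, s, t, hq, hc, hsh⟩) (2 ^ N)
  have hq' : ∀ n, q' n = n := fun n => by
    have h1 := hfst (2 ^ N) (n, 0, 0, 0)
    rw [hsh', hqN] at h1
    exact h1
  have h4 : (g ^ (2 ^ N)) ^ 4 = 1 := by
    ext1 ⟨n, u, v, w⟩
    rw [Perm.one_apply]
    have e4 : (g ^ (2 ^ N)) ^ 4 = g ^ (2 ^ N) * (g ^ (2 ^ N) * (g ^ (2 ^ N) * g ^ (2 ^ N))) := by
      rw [pow_succ, pow_succ, pow_succ, pow_one]; simp only [mul_assoc]
    rw [e4, Perm.mul_apply, Perm.mul_apply, Perm.mul_apply, hsh', hsh', hsh', hsh']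
    simp only [hq', Prod.mk.injEq, true_and]
    have hu : u + r' n + r' n = u := by rw [add_assoc, add_self', add_zero]
    have hv : v + s' n + s' n = v := by rw [add_assoc, add_self', add_zero]
    rw [hu, hv]
    refine ⟨hu, hv, ?_⟩
    have ha := add_self' (t' n u v)
    have hb := add_self' (t' n (u + r' n) (v + s' n))
    linear_combination ha + hb
  have h5 : orderOf g ∣ 2 ^ (N + 2) := by
    rw [orderOf_dvd_iff_pow_eq_one, pow_add, pow_mul]
    exact h4
  obtain ⟨k, -, hk⟩ := (Nat.dvd_prime_pow Nat.prime_two).1 h5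
  exact ⟨k, hk⟩

/-! ### transitivity -/

/-- an element acting on one fibre only -/
def el (m : ℕ) (r s : ZMod 2) (t : ZMod 2 → ZMod 2 → ZMod 2) : Perm Om where
  toFun x := if x.1 = m then (x.1, x.2.1 + r, x.2.2.1 + s, x.2.2.2 + t x.2.1 x.2.2.1) else x
  invFun x := if x.1 = m then
    (x.1, x.2.1 + r, x.2.2.1 + s, x.2.2.2 + t (x.2.1 + r) (x.2.2.1 + s)) else x
  left_inv := by
    rintro ⟨n, u, v, w⟩
    by_cases h : n = m
    · simp only [h, if_true, add_assoc, add_self', add_zero]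
    · simp only [h, if_false]
  right_inv := by
    rintro ⟨n, u, v, w⟩
    by_cases h : n = m
    · simp only [h, if_true, add_assoc, add_self', add_zero]
    · simp only [h, if_false]

theorem el_mem (m : ℕ) (r s : ZMod 2) (t : ZMod 2 → ZMod 2 → ZMod 2)
    (h : t 0 0 + t 0 1 + t 1 0 + t 1 1 = r) : el m r s t ∈ S := by
  refine ⟨?_, 1, fun n => if n = m then r else 0, fun n => if n = m then s else 0,
    fun n u v => if n = m then t u v else 0, fun j x y => Iff.rfl, ?_, ?_⟩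
  · refine (Set.Finite.prod (Set.finite_singleton m) Set.finite_univ).subset fun x hx => ?_
    refine ⟨?_, Set.mem_univ _⟩
    by_contra hcon
    apply hx
    have hcon' : ¬ x.1 = m := hcon
    change (if x.1 = m then _ else x) = x
    rw [if_neg hcon']
  · intro n
    by_cases hn : n = m
    · simp only [hn, if_true]; exact h
    · simp only [hn, if_false, add_zero]
  · intro n u v w
    by_cases hn : n = m
    · change (if n = m then _ else _) = _
      simp only [hn, if_true]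
      rfl
    · change (if n = m then _ else _) = _
      simp only [hn, if_false, add_zero]
      rfl

theorem el_apply (m : ℕ) (r s : ZMod 2) (t : ZMod 2 → ZMod 2 → ZMod 2) (u v w : ZMod 2) :
    el m r s t (m, u, v, w) = (m, u + r, v + s, w + t u v) := by
  change (if m = m then _ else _) = _
  rw [if_pos rfl]

/-- exchange of the first two intervals of length `2 ^ j` -/
def flip (j : ℕ) (x : ℕ) : ℕ :=
  if x < 2 ^ j then x + 2 ^ j else if x < 2 ^ (j + 1) then x - 2 ^ j else x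

theorem flip_flip (j x : ℕ) : flip j (flip j x) = x := by
  have h : 2 ^ (j + 1) = 2 ^ j + 2 ^ j := by ring
  unfold flip
  split_ifs <;> omega

theorem flip_div_le {i j : ℕ} (hij : i ≤ j) (x : ℕ) :
    flip j x / 2 ^ i = flip (j - i) (x / 2 ^ i) := by
  have hi : 0 < 2 ^ i := by positivity
  have h1 : 2 ^ j = 2 ^ i * 2 ^ (j - i) := by rw [← pow_add]; congr 1; omega
  have h2 : 2 ^ (j + 1) = 2 ^ i * 2 ^ (j - i + 1) := by rw [← pow_add]; congr 1; omega
  have h3 : x < 2 ^ j ↔ x / 2 ^ i < 2 ^ (j - i) := by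
    rw [Nat.div_lt_iff_lt_mul hi, h1, Nat.mul_comm]
  have h4 : x < 2 ^ (j + 1) ↔ x / 2 ^ i < 2 ^ (j - i + 1) := by
    rw [Nat.div_lt_iff_lt_mul hi, h2, Nat.mul_comm]
  unfold flip
  by_cases hx : x < 2 ^ j
  · rw [if_pos hx, if_pos (h3.1 hx), h1, Nat.add_mul_div_left _ _ hi]
  · rw [if_neg hx, if_neg (fun h => hx (h3.2 h))]
    by_cases hx' : x < 2 ^ (j + 1)
    · rw [if_pos hx', if_pos (h4.1 hx'), h1, Nat.sub_mul_div]
    · rw [if_neg hx', if_neg (fun h => hx' (h4.2 h))]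

theorem flip_div_gt {i j : ℕ} (hij : j < i) (x : ℕ) : flip j x / 2 ^ i = x / 2 ^ i := by
  have h0 : 2 ^ (j + 1) ≤ 2 ^ i := Nat.pow_le_pow_right (by norm_num) hij
  have h : 2 ^ (j + 1) = 2 ^ j + 2 ^ j := by ring
  unfold flip
  by_cases hx : x < 2 ^ j
  · rw [if_pos hx, Nat.div_eq_of_lt (by omega), Nat.div_eq_of_lt (by omega)]
  · rw [if_neg hx]
    by_cases hx' : x < 2 ^ (j + 1)
    · rw [if_pos hx', Nat.div_eq_of_lt (by omega), Nat.div_eq_of_lt (by omega)]
    · rw [if_neg hx']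

/-- `flip` as a permutation of the naturals -/
def flipP (j : ℕ) : Perm ℕ := ⟨flip j, flip j, flip_flip j, flip_flip j⟩

theorem good_flip (j : ℕ) : Good (flipP j) := by
  have key : ∀ i x y : ℕ, x / 2 ^ i = y / 2 ^ i → flip j x / 2 ^ i = flip j y / 2 ^ i := by
    intro i x y h
    rcases Nat.lt_or_ge j i with hij | hij
    · rw [flip_div_gt hij, flip_div_gt hij, h]
    · rw [flip_div_le hij, flip_div_le hij, h]
  intro i x y
  constructor
  · exact key i x y
  · intro h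
    have := key i (flip j x) (flip j y) h
    rwa [flip_flip, flip_flip] at this

/-- lift to the points -/
def lift (j : ℕ) : Perm Om := Equiv.prodCongr (flipP j) (Equiv.refl _)

theorem lift_mem (j : ℕ) : lift j ∈ S := by
  refine ⟨?_, flipP j, 0, 0, 0, good_flip j, fun n => by simp, fun n u v w => by
    simp [lift]⟩
  refine (Set.Finite.prod (Set.finite_lt_nat (2 ^ (j + 1))) Set.finite_univ).subset fun x hx => ?_
  refine ⟨?_, Set.mem_univ _⟩
  by_contra hcon
  apply hx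
  have h : 2 ^ (j + 1) = 2 ^ j + 2 ^ j := by ring
  have hcon' : ¬ x.1 < 2 ^ (j + 1) := hcon
  change (flip j x.1, x.2) = x
  unfold flip
  rw [if_neg (by omega), if_neg hcon']

theorem to_zero : ∀ n : ℕ, ∃ g ∈ S, ∀ u v w, g (n, u, v, w) = (0, u, v, w) := by
  intro n
  induction n using Nat.strong_induction_on with
  | _ n ih =>
    rcases Nat.eq_zero_or_pos n with rfl | hn
    · exact ⟨1, S.one_mem, fun u v w => rfl⟩
    · have h1 : 2 ^ Nat.log 2 n ≤ n := Nat.pow_log_le_self 2 (by omega)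
      have h2 : n < 2 ^ (Nat.log 2 n + 1) := Nat.lt_pow_succ_log_self (by norm_num) n
      have h3 : flip (Nat.log 2 n) n = n - 2 ^ Nat.log 2 n := by
        unfold flip
        rw [if_neg (by omega), if_pos h2]
      have h4 : 0 < 2 ^ Nat.log 2 n := by positivity
      obtain ⟨g, hg, hg'⟩ := ih (n - 2 ^ Nat.log 2 n) (by omega)
      refine ⟨g * lift (Nat.log 2 n), S.mul_mem hg (lift_mem _), fun u v w => ?_⟩
      rw [Perm.mul_apply]
      change g (flip (Nat.log 2 n) n, u, v, w) = _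
      rw [h3, hg']

theorem trans_S : Trans S := by
  have key : ∀ x : Om, ∃ g ∈ S, g x = (0, 0, 0, 0) := by
    rintro ⟨n, u, v, w⟩
    obtain ⟨g₀, hg₀, h0⟩ := to_zero n
    let g₁ := el 0 u 0 (fun a b => if a = 0 ∧ b = 0 then u else 0)
    have hg₁ : g₁ ∈ S := el_mem _ _ _ _ (by simp)
    let g₂ := el 0 0 v (fun _ _ => 0)
    have hg₂ : g₂ ∈ S := el_mem _ _ _ _ (by simp)
    have hs : ∀ a : ZMod 2, a + a + a + a = 0 := by decide
    have e1 : g₁ (0, u, v, w) = (0, 0, v, w + (if u = 0 ∧ v = 0 then u else 0)) := by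
      rw [el_apply, add_self', add_zero]
    obtain ⟨w', hw'⟩ : ∃ w', w + (if u = 0 ∧ v = 0 then u else 0) = w' := ⟨_, rfl⟩
    rw [hw'] at e1
    have e2 : g₂ (0, 0, v, w') = (0, 0, 0, w') := by
      rw [el_apply]; simp only [add_zero, add_self']
    let g₃ := el 0 0 0 (fun _ _ => w')
    have hg₃ : g₃ ∈ S := el_mem _ _ _ _ (hs w')
    have e3 : g₃ (0, 0, 0, w') = (0, 0, 0, 0) := by
      rw [el_apply]; simp only [add_zero, add_self']
    refine ⟨g₃ * (g₂ * (g₁ * g₀)), S.mul_mem hg₃ (S.mul_mem hg₂ (S.mul_mem hg₁ hg₀)), ?_⟩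
    rw [Perm.mul_apply, Perm.mul_apply, Perm.mul_apply, h0, e1, e2, e3]
  intro x y
  obtain ⟨g, hg, hgx⟩ := key x
  obtain ⟨g', hg', hgy⟩ := key y
  refine ⟨g'⁻¹ * g, S.mul_mem (S.inv_mem hg') hg, ?_⟩
  rw [Perm.mul_apply, hgx, Perm.inv_eq_iff_eq, hgy]

/-! ### the main point -/

theorem cycle_two {Ω : Type} (e : Perm Ω) (y z : Ω) (h1 : e y = z) (h2 : e z = y) :
    {y' : Ω | ∃ n : ℤ, (e ^ n) y = y'} = {y, z} := by
  have hsq : (e ^ (2 : ℤ)) y = y := by
    change (e ^ (1 + 1 : ℤ)) y = y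
    rw [zpow_add, zpow_one, Perm.mul_apply, h1, h2]
  have heven : ∀ m : ℤ, (e ^ (2 * m)) y = y := by
    intro m
    rw [zpow_mul]
    exact Function.IsFixedPt.perm_zpow hsq m
  ext y'
  constructor
  · rintro ⟨n, rfl⟩
    rcases Int.even_or_odd' n with ⟨m, rfl | rfl⟩
    · left; exact heven m
    · right
      rw [add_comm, zpow_add, zpow_one, Perm.mul_apply, heven]
      exact h1
  · rintro (rfl | rfl)
    · exact ⟨0, rfl⟩
    · exact ⟨1, by rw [zpow_one]; exact h1⟩

theorem main (H : Subgroup (Perm Om)) (hHS : H ≤ S) (hH : Trans H) : ¬ CyclicBlock 2 H := by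
  rintro ⟨-, -, -, hcb⟩
  obtain ⟨h, hh, hh0⟩ := hH (0, 0, 0, 0) (0, 0, 1, 0)
  obtain ⟨k, hk, hk0⟩ := hH (0, 0, 0, 0) (0, 1, 0, 0)
  obtain ⟨-, q, r, s, t, -, -, hsh⟩ := hHS hh
  obtain ⟨-, q', r', s', t', -, hc, hsh'⟩ := hHS hk
  rw [hsh] at hh0
  rw [hsh'] at hk0
  simp only [Prod.mk.injEq, zero_add] at hh0 hk0
  obtain ⟨hq, hr, hs, -⟩ := hh0
  obtain ⟨hq', hr', hs', -⟩ := hk0
  have hsum := hc 0
  rw [hr'] at hsum
  have h11 : (1 : ZMod 2) + 1 = 0 := by decide
  -- the layer on which `k` has cycles of length two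
  obtain ⟨v₁, hv₁, hv₂⟩ : ∃ v₁ : ZMod 2, t' 0 0 v₁ + t' 0 1 v₁ = 0 ∧
      t' 0 0 (v₁ + 1) + t' 0 1 (v₁ + 1) = 1 := by
    rcases zmod2 (t' 0 0 0 + t' 0 1 0) with h0 | h0
    · refine ⟨0, h0, ?_⟩
      rw [zero_add]
      linear_combination hsum - h0
    · refine ⟨1, ?_, ?_⟩
      · linear_combination hsum - h0
      · rw [h11]; exact h0
  obtain ⟨b, hb⟩ : ∃ b, h (0, 0, v₁, 0) = (0, 0, v₁ + 1, b) := ⟨_, by
    rw [hsh, hq, hr, hs, add_zero]⟩
  have hkx : k (0, 0, v₁, 0) = (0, 1, v₁, t' 0 0 v₁) := by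
    rw [hsh', hq', hr', hs', add_zero, zero_add, zero_add]
  have hkkx : k (0, 1, v₁, t' 0 0 v₁) = (0, 0, v₁, 0) := by
    rw [hsh', hq', hr', hs', add_zero, hv₁, h11]
  obtain ⟨c, hcz⟩ : ∃ c, h (0, 1, v₁, t' 0 0 v₁) = (0, 1, v₁ + 1, c) := ⟨_, by
    rw [hsh, hq, hr, hs, add_zero]⟩
  have hky : k (0, 0, v₁ + 1, b) = (0, 1, v₁ + 1, b + t' 0 0 (v₁ + 1)) := by
    rw [hsh', hq', hr', hs', add_zero, zero_add]
  have hkz : k (0, 1, v₁ + 1, c) = (0, 0, v₁ + 1, c + t' 0 1 (v₁ + 1)) := by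
    rw [hsh', hq', hr', hs', add_zero, h11]
  have hinv : ∀ x, h⁻¹ (h x) = x := fun x => by rw [← Perm.mul_apply, inv_mul_cancel]; rfl
  have he1 : (h * k * h⁻¹) (0, 0, v₁ + 1, b) = (0, 1, v₁ + 1, c) := by
    rw [← hb, Perm.mul_apply, Perm.mul_apply, hinv, hkx, hcz]
  have he2 : (h * k * h⁻¹) (0, 1, v₁ + 1, c) = (0, 0, v₁ + 1, b) := by
    rw [← hcz, Perm.mul_apply, Perm.mul_apply, hinv, hkkx, hb]
  have hblock := (hcb (h * k * h⁻¹) (H.mul_mem (H.mul_mem hh hk) (H.inv_mem hh))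
    (0, 0, v₁ + 1, b)).2 k hk
  rw [cycle_two _ _ _ he1 he2, Set.image_pair, hky, hkz] at hblock
  have h01 : (0 : ZMod 2) ≠ 1 := by decide
  have hw : ∀ a : ZMod 2, a + 1 ≠ a := by decide
  have hd : c = b + t' 0 0 (v₁ + 1) ∨ c = b + t' 0 0 (v₁ + 1) + 1 := by
    rcases zmod2 (c - (b + t' 0 0 (v₁ + 1))) with h0 | h0
    · left; linear_combination h0
    · right; linear_combination h0
  rcases hd with hd | hd
  · -- `k y = z`
    have hmem : ((0, 1, v₁ + 1, b + t' 0 0 (v₁ + 1)) : Om) ∈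
        ({(0, 0, v₁ + 1, b), (0, 1, v₁ + 1, c)} : Set Om) := by
      right; rw [hd]; rfl
    rcases hblock with hB | hB
    · have h1 : ((0, 0, v₁ + 1, c + t' 0 1 (v₁ + 1)) : Om) ∈
          ({(0, 0, v₁ + 1, b), (0, 1, v₁ + 1, c)} : Set Om) := by
        rw [← hB]; right; rfl
      rcases h1 with h1 | h1
      · have h2 : c + t' 0 1 (v₁ + 1) = b := by
          simpa using h1
        apply hw b
        rw [hd] at h2
        linear_combination h2 - hv₂
      · have h2 := (Prod.mk.inj (Prod.mk.inj (Set.mem_singleton_iff.1 h1)).2).1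
        exact h01 h2
    · exact Set.disjoint_left.1 hB (Set.mem_insert _ _) hmem
  · -- `k z = y`
    have h3 : c + t' 0 1 (v₁ + 1) = b := by
      rw [hd]
      linear_combination hv₂ + h11
    rw [h3] at hblock
    rcases hblock with hB | hB
    · have h1 : ((0, 1, v₁ + 1, b + t' 0 0 (v₁ + 1)) : Om) ∈
          ({(0, 0, v₁ + 1, b), (0, 1, v₁ + 1, c)} : Set Om) := by
        rw [← hB]; left; rfl
      rcases h1 with h1 | h1
      · have h2 := (Prod.mk.inj (Prod.mk.inj h1).2).1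
        exact h01 h2.symm
      · have h2 : b + t' 0 0 (v₁ + 1) = c := by
          have := Set.mem_singleton_iff.1 h1
          simpa using this
        rw [hd] at h2
        exact hw _ h2.symm
    · exact Set.disjoint_left.1 hB (Set.mem_insert_of_mem _ rfl) (Set.mem_insert _ _)

/-- There are an infinite set `Ω`, a prime `p`, a transitive group `G` of finitary permutations of
`Ω` and a transitive Sylow `p`-subgroup `S` of `G` such that no transitive subgroup of `S` has the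
cyclic-block property. -/
theorem result : ∃ (Ω : Type) (p : ℕ) (G S : Subgroup (Perm Ω)), Infinite Ω ∧ p.Prime ∧
    Finitary G ∧ Trans G ∧ IsSylow p G S ∧ Trans S ∧
    ∀ H : Subgroup (Perm Ω), H ≤ S → Trans H → ¬ CyclicBlock p H :=
  ⟨Om, 2, S, S, inferInstance, Nat.prime_two, fun _ hg => hg.1, trans_S,
    ⟨le_rfl, isP_S, fun _ h1 _ h2 => le_antisymm h1 h2⟩, trans_S, main⟩

end Pool.Agent.Results.MP_f6f917_al.NoCyclicBlock
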